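import Pool.Agent.P.MP_622402_ag.Main

open Filter Topology Pool.Agent.P.MP_622402_ag

/-- An `A`-finite corank one mono-germ with a deformation that has unexpected homology, for every
representative of the versal unfolding and all small nonzero values of the parameter. -/
theorem Pool.Agent.Results.MP_622402_ag.CuspCounterexample.result :
    ∃ (n p d : ℕ) (f : (Fin n → ℂ) → (Fin p → ℂ)) (F : (Fin n → ℂ) × (Fin d → ℂ) → (Fin p → ℂ))
      (γ : ℂ → (Fin d → ℂ)), 1 ≤ n ∧ n < p ∧ AnalyticAt ℂ f 0 ∧ f 0 = 0 ∧ AFinite f ∧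
      Module.finrank ℂ (LinearMap.range (fderiv ℂ f 0).toLinearMap) = n - 1 ∧
      Versal F f ∧ AnalyticOnNhd ℂ F Set.univ ∧ AnalyticAt ℂ γ 0 ∧ γ 0 = 0 ∧
      ∀ U, IsOpen U → 0 ∈ U → ∀ᶠ t in 𝓝[≠] 0, Unexpected F U (γ t) :=
  ⟨1, 3, 2, cusp, unf, fun t => ![t, 0], le_rfl, by decide, analyticAt_cusp 0, by simp [cusp],
    aFinite_cusp, by simp [fderiv_cusp], versal_unf, fun z _ => analyticAt_unf z,
    analyticAt_pi_iff.2 fun i => by
      fin_cases i
      exacts [analyticAt_id, analyticAt_const], by simp,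
    fun _ hU h0 => unexpected (hU.mem_nhds h0)⟩
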